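import Pool.Agent.H65.FL.PHB

set_option autoImplicit false

open MeasureTheory ProbabilityTheory
open scoped NNReal ENNReal

namespace H65.FL

open H5.FL

theorem t_FAC (hPHD : S_PHD) (hCLO : S_CLO) (hDGP : S_DGP) (hPMN : S_PMN) : S_FAC := by
  intro N hN q hq hq1 a b ha haN hb hb2 hbq
  have hM : (2 : ℝ) ≤ (N : ℝ) := by exact_mod_cast hN
  have hd1 : ∀ x, 0 < x → HasDerivAt (phi1 (N : ℝ) q) (psiT (N : ℝ) q x / x ^ 2) x :=
    fun x hx => (hPHD (N : ℝ) q hM hq1 x hx).2
  have hd : ∀ x, 0 < x → HasDerivAt (phi (N : ℝ) q) (phi1 (N : ℝ) q x) x :=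
    fun x hx => (hPHD (N : ℝ) q hM hq1 x hx).1
  have hN0 : 0 < (N : ℝ) := by linarith
  have hNi : 0 < 1 / (N : ℝ) := by positivity
  -- phi1 is monotone on (0, 1/N]
  have mono1 : ∀ x y, 0 < x → x ≤ y → y ≤ 1 / (N : ℝ) → phi1 (N : ℝ) q x ≤ phi1 (N : ℝ) q y := by
    intro x y hx hxy hy
    have m := mono_of (f := phi1 (N : ℝ) q) (f' := fun x => psiT (N : ℝ) q x / x ^ 2) (a := x)
      (b := y) hx hd1 (fun z hz1 hz2 => div_nonneg
        (psiT_pos hPMN hM hq (hx.trans_le hz1) (hz2.trans hy)).le (by positivity))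
    exact m ⟨le_refl _, hxy⟩ ⟨hxy, le_refl _⟩ hxy
  have key : ∀ b, 0 < b → b ≤ 1 / (N : ℝ) →
      phi (N : ℝ) q a + phi1 (N : ℝ) q a * (b - a) ≤ phi (N : ℝ) q b := by
    intro b hb hbN
    have hlin : ∀ c x : ℝ, HasDerivAt (fun x => c * (x - a)) c x := by
      intro c x
      have := ((hasDerivAt_id x).sub_const a).const_mul c
      simpa using this
    rcases le_total a b with h | h
    · have m := mono_of (f := fun x => phi (N : ℝ) q x - phi1 (N : ℝ) q a * (x - a))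
        (f' := fun x => phi1 (N : ℝ) q x - phi1 (N : ℝ) q a) (a := a) (b := b) ha
        (fun z hz => (hd z hz).sub (hlin _ z)) (fun z hz1 hz2 => by
          have := mono1 a z ha hz1 (hz2.trans hbN)
          show 0 ≤ phi1 (N : ℝ) q z - phi1 (N : ℝ) q a
          linarith)
      have := m ⟨le_refl _, h⟩ ⟨h, le_refl _⟩ h
      simp only [sub_self, mul_zero] at this
      linarith
    · have m := mono_of (f := fun x => phi1 (N : ℝ) q a * (x - a) - phi (N : ℝ) q x)
        (f' := fun x => phi1 (N : ℝ) q a - phi1 (N : ℝ) q x) (a := b) (b := a) hb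
        (fun z hz => (hlin _ z).sub (hd z hz)) (fun z hz1 hz2 => by
          have := mono1 z a (hb.trans_le hz1) hz2 haN
          show 0 ≤ phi1 (N : ℝ) q a - phi1 (N : ℝ) q z
          linarith)
      have := m ⟨le_refl _, h⟩ ⟨h, le_refl _⟩ h
      simp only [sub_self, mul_zero] at this
      linarith
  rcases le_total b (1 / (N : ℝ)) with h | h
  · exact key b hb h
  · have h1 := key (1 / (N : ℝ)) hNi le_rfl
    rw [phi_at] at h1
    have h2 := mono1 a (1 / (N : ℝ)) ha haN le_rfl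
    rw [phi1_at] at h2
    have h3 := (hCLO (N : ℝ) q hM hq hq1 b h hbq).2
    have h4 := hDGP N hN b h hb2
    have h5 : phi1 (N : ℝ) q a * (b - 1 / (N : ℝ)) ≤ 0 :=
      mul_nonpos_of_nonpos_of_nonneg h2 (by linarith)
    have h6 : 0 ≤ phi (N : ℝ) q b := by rw [h3]; exact h4
    have h7 : phi1 (N : ℝ) q a * (b - a) = phi1 (N : ℝ) q a * (1 / (N : ℝ) - a)
        + phi1 (N : ℝ) q a * (b - 1 / (N : ℝ)) := by ring
    rw [h7]
    linarith

theorem t_FCE (hFAC : S_FAC) (hFSM : S_FSM) : S_FCE := by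
  intro N hN q hq hq1 p hp hsum hpq ⟨j, hj⟩
  have hM : (2 : ℝ) ≤ (N : ℝ) := by exact_mod_cast hN
  have hN0 : 0 < (N : ℝ) := by linarith
  obtain ⟨h1, -, -⟩ := hFSM (N : ℝ) q hM hq hq1 q hq le_rfl
  set a : ℝ := (1 - q) / ((N : ℝ) - 1) with ha
  have ha0 : 0 < a := div_pos (by linarith) (by linarith)
  have haN : a ≤ 1 / (N : ℝ) := by
    rw [ha, div_le_div_iff₀ (by linarith) hN0]
    rw [div_le_iff₀ hN0] at hq
    linarith
  have hsplit : ∑ i, p i = p j + ∑ i ∈ Finset.univ.erase j, p i := by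
    rw [Finset.add_sum_erase _ _ (Finset.mem_univ j)]
  have hsplit2 : ∑ i, phi (N : ℝ) q (p i) = phi (N : ℝ) q (p j)
      + ∑ i ∈ Finset.univ.erase j, phi (N : ℝ) q (p i) := by
    rw [Finset.add_sum_erase _ (fun i => phi (N : ℝ) q (p i)) (Finset.mem_univ j)]
  have hle : ∀ i ∈ Finset.univ.erase j, p i ≤ 1 - q := by
    intro i hi
    have : p i ≤ ∑ i ∈ Finset.univ.erase j, p i :=
      Finset.single_le_sum (f := p) (fun i _ => (hp i).le) hi
    linarith
  have hcard : (((Finset.univ : Finset (Fin N)).erase j).card : ℝ) = (N : ℝ) - 1 := by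
    rw [Finset.card_erase_of_mem (Finset.mem_univ j), Finset.card_univ, Fintype.card_fin,
      Nat.cast_sub (by omega), Nat.cast_one]
  have hsumle : ∑ i ∈ Finset.univ.erase j,
      (phi (N : ℝ) q a + phi1 (N : ℝ) q a * (p i - a)) ≤
      ∑ i ∈ Finset.univ.erase j, phi (N : ℝ) q (p i) := by
    apply Finset.sum_le_sum
    intro i hi
    have e1 := hle i hi
    have e2 := hpq i
    exact hFAC N hN q hq hq1 a (p i) ha0 haN (hp i) (by linarith) e2
  have hS : ∑ i ∈ Finset.univ.erase j, p i = 1 - q := by linarith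
  have hna : ((N : ℝ) - 1) * a = 1 - q := by
    have hne : (N : ℝ) - 1 ≠ 0 := ne_of_gt (by linarith)
    rw [ha]; field_simp
  have hlhs : ∑ i ∈ Finset.univ.erase j,
      (phi (N : ℝ) q a + phi1 (N : ℝ) q a * (p i - a)) = ((N : ℝ) - 1) * phi (N : ℝ) q a := by
    rw [Finset.sum_add_distrib, Finset.sum_const, nsmul_eq_mul, hcard, ← Finset.mul_sum,
      Finset.sum_sub_distrib, Finset.sum_const, nsmul_eq_mul, hcard, hS, hna]
    ring
  rw [hlhs] at hsumle
  rw [hsplit2, hj, ← h1]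
  linarith

end H65.FL
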