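import Pool.Agent.H5.FL.Stm

set_option autoImplicit false

open MeasureTheory ProbabilityTheory
open scoped NNReal ENNReal

namespace H65.FL

open H5.FL

theorem t_GBD (hPHB : S_PHB) (hSMD : S_SMD) : S_GBD := by
  intro N hN q hq hq1
  have hN2 : (2 : ℝ) ≤ (N : ℝ) := by exact_mod_cast hN
  obtain ⟨K, hK, hb⟩ := hPHB (N : ℝ) q hN2 hq hq1
  obtain ⟨hs, -, -⟩ := hSMD N hN
  refine ⟨(N + 1) * K, by positivity, fun ξ => ?_⟩
  obtain ⟨hp, hsum⟩ := hs ξ
  have hb' : ∀ i, |sm ξ i * phi1 (N : ℝ) q (sm ξ i)| ≤ K ∧ -K ≤ phi (N : ℝ) q (sm ξ i) ∧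
      |psiT (N : ℝ) q (sm ξ i)| ≤ K := fun i => hb _ (hp i).1 (hp i).2.le
  refine ⟨?_, fun j => ⟨?_, ?_⟩⟩
  · unfold GG
    have : ∑ _i : Fin N, -K ≤ ∑ i, phi (N : ℝ) q (sm ξ i) :=
      Finset.sum_le_sum fun i _ => (hb' i).2.1
    simp only [Finset.sum_const, Finset.card_univ, Fintype.card_fin, nsmul_eq_mul] at this
    nlinarith
  · unfold G1
    have h1 : |∑ i, sm ξ i * phi1 (N : ℝ) q (sm ξ i)| ≤ N * K := by
      refine (Finset.abs_sum_le_sum_abs _ _).trans ?_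
      have : ∑ i, |sm ξ i * phi1 (N : ℝ) q (sm ξ i)| ≤ ∑ _i : Fin N, K :=
        Finset.sum_le_sum fun i _ => (hb' i).1
      simpa using this
    have h2 : |sm ξ j * ∑ i, sm ξ i * phi1 (N : ℝ) q (sm ξ i)| ≤ N * K := by
      rw [abs_mul, abs_of_pos (hp j).1]
      have : sm ξ j * |∑ i, sm ξ i * phi1 (N : ℝ) q (sm ξ i)| ≤
          1 * |∑ i, sm ξ i * phi1 (N : ℝ) q (sm ξ i)| :=
        mul_le_mul_of_nonneg_right (hp j).2.le (abs_nonneg _)
      linarith
    rw [mul_sub]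
    refine (abs_sub _ _).trans ?_
    have := (hb' j).1
    linarith
  · unfold BB
    have hj := hp j
    have h1 : |∑ i ∈ Finset.univ.erase j, psiT (N : ℝ) q (sm ξ i)| ≤ N * K := by
      refine (Finset.abs_sum_le_sum_abs _ _).trans ?_
      have : ∑ i ∈ Finset.univ.erase j, |psiT (N : ℝ) q (sm ξ i)| ≤
          ∑ _i ∈ Finset.univ.erase j, K :=
        Finset.sum_le_sum fun i _ => (hb' i).2.2
      refine this.trans ?_
      rw [Finset.sum_const, nsmul_eq_mul]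
      apply mul_le_mul_of_nonneg_right _ hK.le
      have : (Finset.univ.erase j).card ≤ N := by
        refine (Finset.card_le_univ _).trans ?_
        simp
      exact_mod_cast this
    have h2 : |(1 - sm ξ j) ^ 2 * psiT (N : ℝ) q (sm ξ j)| ≤ K := by
      rw [abs_mul, abs_of_nonneg (sq_nonneg _)]
      have e1 : (1 - sm ξ j) ^ 2 ≤ 1 := by nlinarith [hj.1, hj.2]
      have := mul_le_mul e1 (hb' j).2.2 (abs_nonneg _) zero_le_one
      linarith
    have h3 : |sm ξ j ^ 2 * ∑ i ∈ Finset.univ.erase j, psiT (N : ℝ) q (sm ξ i)| ≤ N * K := by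
      rw [abs_mul, abs_of_nonneg (sq_nonneg _)]
      have e1 : sm ξ j ^ 2 ≤ 1 := by nlinarith [hj.1, hj.2]
      have := mul_le_mul e1 h1 (abs_nonneg _) zero_le_one
      linarith
    refine (abs_add_le _ _).trans ?_
    linarith

end H65.FL
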