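import Pool.Agent.H5.FL.Stm

set_option autoImplicit false

open MeasureTheory ProbabilityTheory
open scoped NNReal ENNReal

namespace H65.FL

open H5.FL

theorem phi1_at (M q : ℝ) : phi1 M q (1 / M) = 0 := by
  unfold phi1; exact intervalIntegral.integral_same

theorem phi_at (M q : ℝ) : phi M q (1 / M) = 0 := by
  unfold phi; exact intervalIntegral.integral_same

/-- monotonicity from the derivative, on `[a,b]` inside `(0,∞)`. -/
theorem mono_of {f f' : ℝ → ℝ} {a b : ℝ} (ha : 0 < a) (hf : ∀ x, 0 < x → HasDerivAt f (f' x) x)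
    (h : ∀ x, a ≤ x → x ≤ b → 0 ≤ f' x) : MonotoneOn f (Set.Icc a b) := by
  apply monotoneOn_of_deriv_nonneg (convex_Icc a b)
  · intro x hx
    exact (hf x (ha.trans_le hx.1)).continuousAt.continuousWithinAt
  · intro x hx
    rw [interior_Icc] at hx
    exact (hf x (ha.trans hx.1)).differentiableAt.differentiableWithinAt
  · intro x hx
    rw [interior_Icc] at hx
    rw [(hf x (ha.trans hx.1)).deriv]
    exact h x hx.1.le hx.2.le

theorem psiT_pos (hPMN : S_PMN) {M q x : ℝ} (hM : 2 ≤ M) (hq : 1 / M ≤ q) (hx : 0 < x)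
    (hx1 : x ≤ 1 / M) : 0 < psiT M q x := by
  unfold psiT
  rw [min_eq_left (hx1.trans hq), (hPMN M hM).1 x hx.le hx1]
  have : 0 < M / (M - 1) * x := by
    apply mul_pos (div_pos (by linarith) (by linarith)) hx
  linarith

theorem t_PHB (hPTC : S_PTC) (hPHD : S_PHD) (hPMN : S_PMN) : S_PHB := by
  intro M q hM hq hq1
  obtain ⟨-, C0, hC0⟩ := hPTC M q hM hq1
  have hM0 : 0 < M := by linarith
  have hMi : 0 < 1 / M := by positivity
  have hMi1 : 1 / M ≤ 1 := by
    rw [div_le_one hM0]; linarith
  have hMM : 1 / (1 / M) = M := by field_simp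
  obtain ⟨C, hC, hCb⟩ : ∃ C : ℝ, 0 < C ∧ ∀ x, 0 ≤ x → x ≤ 1 → |psiT M q x| ≤ C :=
    ⟨|C0| + 1, by positivity, fun x h0 h1 => (hC0 x h0 h1).trans (by
      have := le_abs_self C0; linarith)⟩
  have hd1 : ∀ x, 0 < x → HasDerivAt (phi1 M q) (psiT M q x / x ^ 2) x :=
    fun x hx => (hPHD M q hM hq1 x hx).2
  have hd : ∀ x, 0 < x → HasDerivAt (phi M q) (phi1 M q x) x :=
    fun x hx => (hPHD M q hM hq1 x hx).1
  have hinv : ∀ x : ℝ, 0 < x → HasDerivAt (fun x : ℝ => C / x) (-(C / x ^ 2)) x := by
    intro x hx
    have := (hasDerivAt_inv hx.ne').const_mul C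
    have e2 : C * -(x ^ 2)⁻¹ = -(C / x ^ 2) := by rw [div_eq_mul_inv]; ring
    rw [e2] at this
    simpa only [div_eq_mul_inv] using this
  -- bounds for phi1
  have hA : ∀ x, 0 < x → x ≤ 1 → |phi1 M q x| ≤ |C / x - C * M| := by
    intro x hx hx1
    have m1 : ∀ a b : ℝ, 0 < a → b ≤ 1 →
        MonotoneOn (fun x => phi1 M q x - C / x) (Set.Icc a b) := by
      intro a b ha hb
      apply mono_of (f' := fun x => psiT M q x / x ^ 2 - -(C / x ^ 2)) ha
      · intro x hx
        exact (hd1 x hx).sub (hinv x hx)
      · intro x hx1 hx2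
        have h0 : 0 < x := ha.trans_le hx1
        have h1 := (abs_le.1 (hCb x h0.le (hx2.trans hb))).1
        have : psiT M q x / x ^ 2 - -(C / x ^ 2) = (psiT M q x + C) / x ^ 2 := by ring
        show 0 ≤ psiT M q x / x ^ 2 - -(C / x ^ 2)
        rw [this]
        apply div_nonneg _ (by positivity)
        linarith
    have m2 : ∀ a b : ℝ, 0 < a → b ≤ 1 →
        MonotoneOn (fun x => -phi1 M q x - C / x) (Set.Icc a b) := by
      intro a b ha hb
      apply mono_of (f' := fun x => -(psiT M q x / x ^ 2) - -(C / x ^ 2)) ha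
      · intro x hx
        exact (hd1 x hx).neg.sub (hinv x hx)
      · intro x hx1 hx2
        have h0 : 0 < x := ha.trans_le hx1
        have h1 := (abs_le.1 (hCb x h0.le (hx2.trans hb))).2
        have : -(psiT M q x / x ^ 2) - -(C / x ^ 2) = (C - psiT M q x) / x ^ 2 := by ring
        show 0 ≤ -(psiT M q x / x ^ 2) - -(C / x ^ 2)
        rw [this]
        apply div_nonneg _ (by positivity)
        linarith
    rcases le_total x (1 / M) with h | h
    · have e1 := m1 x (1 / M) hx hMi1 ⟨le_refl _, h⟩ ⟨h, le_refl _⟩ h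
      have e2 := m2 x (1 / M) hx hMi1 ⟨le_refl _, h⟩ ⟨h, le_refl _⟩ h
      simp only [phi1_at] at e1 e2
      have hCM : C / (1 / M) = C * M := by field_simp
      rw [hCM] at e1 e2
      have h1 : C * M ≤ C / x := by
        rw [le_div_iff₀ hx]
        have : M * x ≤ 1 := by
          rw [le_div_iff₀ hM0] at h; linarith
        nlinarith
      rw [abs_of_nonneg (a := C / x - C * M) (by linarith), abs_le]
      constructor <;> linarith
    · have e1 := m1 (1 / M) x hMi hx1 ⟨le_refl _, h⟩ ⟨h, le_refl _⟩ h
      have e2 := m2 (1 / M) x hMi hx1 ⟨le_refl _, h⟩ ⟨h, le_refl _⟩ h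
      simp only [phi1_at] at e1 e2
      have hCM : C / (1 / M) = C * M := by field_simp
      rw [hCM] at e1 e2
      have h1 : C / x ≤ C * M := by
        rw [div_le_iff₀ hx]
        have : 1 ≤ M * x := by
          rw [div_le_iff₀ hM0] at h; linarith
        nlinarith
      rw [abs_of_nonpos (a := C / x - C * M) (by linarith), abs_le]
      constructor <;> linarith
  refine ⟨C * (1 + M) + C, by positivity, fun x hx hx1 => ⟨?_, ?_, ?_⟩⟩
  · rw [abs_mul, abs_of_pos hx]
    have h1 := hA x hx hx1
    have h2 : |C / x - C * M| ≤ C / x + C * M := by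
      have p1 : 0 < C / x := by positivity
      have p2 : 0 < C * M := by positivity
      rw [abs_le]; constructor <;> linarith
    have h3 : x * |phi1 M q x| ≤ x * (C / x + C * M) :=
      mul_le_mul_of_nonneg_left (h1.trans h2) hx.le
    have h4 : x * (C / x + C * M) = C + x * (C * M) := by field_simp
    have h5 : x * (C * M) ≤ 1 * (C * M) := mul_le_mul_of_nonneg_right hx1 (by positivity)
    nlinarith
  · rcases le_total x (1 / M) with h | h
    · -- phi is antitone on (0,1/M]
      have m1 : ∀ y, x ≤ y → y ≤ 1 / M → phi1 M q y ≤ 0 := by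
        intro y hy1 hy2
        have hy0 : 0 < y := hx.trans_le hy1
        have m := mono_of (f := phi1 M q) (f' := fun x => psiT M q x / x ^ 2) (a := y) (b := 1 / M)
          hy0 hd1 (fun z hz1 hz2 => div_nonneg
            (psiT_pos hPMN hM hq (hy0.trans_le hz1) hz2).le (by positivity))
        have := m ⟨le_refl _, hy2⟩ ⟨hy2, le_refl _⟩ hy2
        rwa [phi1_at] at this
      have m := mono_of (f := fun x => -phi M q x) (f' := fun x => -phi1 M q x) (a := x)
        (b := 1 / M) hx (fun z hz => (hd z hz).neg) (fun z hz1 hz2 => by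
          have := m1 z hz1 hz2
          show 0 ≤ -phi1 M q z
          linarith)
      have := m ⟨le_refl _, h⟩ ⟨h, le_refl _⟩ h
      simp only [phi_at] at this
      have hK : 0 < C * (1 + M) + C := by positivity
      linarith
    · have m := mono_of (f := fun x => phi M q x + C * M * x) (f' := fun x => phi1 M q x + C * M)
        (a := 1 / M) (b := x) hMi (fun z hz => by
          have := (hd z hz).add (((hasDerivAt_id z).const_mul (C * M)))
          convert this using 1 <;> first | rfl | simp) (fun z hz1 hz2 => by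
          have hz0 : 0 < z := hMi.trans_le hz1
          have h1 := hA z hz0 (hz2.trans hx1)
          have h2 : C / z ≤ C * M := by
            rw [div_le_iff₀ hz0]
            have : 1 ≤ M * z := by
              rw [div_le_iff₀ hM0] at hz1; linarith
            nlinarith
          have h3 : 0 < C / z := by positivity
          rw [abs_of_nonpos (a := C / z - C * M) (by linarith)] at h1
          have h4 := (abs_le.1 h1).1
          show 0 ≤ phi1 M q z + C * M
          linarith)
      have := m ⟨le_refl _, h⟩ ⟨h, le_refl _⟩ h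
      simp only [phi_at] at this
      have h5 : C * M * x ≤ C * M * 1 := mul_le_mul_of_nonneg_left hx1 (by positivity)
      have h6 : 0 < C * M * (1 / M) := by positivity
      nlinarith
  · have := hCb x hx.le hx1
    nlinarith [mul_pos hC hM0]

end H65.FL
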